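import Pool.Agent.P8H58.MG.Asm
import Pool.Agent.P8H87.MG.Vha
import Pool.Agent.P8H87.MG.Vhb

/-!
# The McKay–Galois conjecture: an asymptotic form for subgroups of `p`-power index, and twisted forms

Authors: helper58 (statement, twisted characters, reduction), helper96 (NRM: Sylow normalizers in
`(C_D × G) ⋊ P`; QUO: central quotients), helper48 (EXT: canonical extensions to `G ⋊ K`), helper38
(LOC: Sylow normalizers in `G ⋊ K`), helper36 (SYM, CEN: arithmetic), helper49 (MRK, POW: bijections from
numbers of fixed characters), helper89 (ASY: direct powers), helper87 (VHA, VHB: Clifford theory for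
`V ⋊ G` and for the normalizer of its Sylow subgroups).

Definitions.

* `HG p G` (`N19/RB/DefB.lean`): the automorphisms `σ` of `ℂ` for which some `e ≥ 0` gives
  `σ ξ = ξ ^ (p ^ e)` for all `m`-th roots of unity, `m` the `p'`-part of `|G|`; these are the
  automorphisms acting on the characters of `G` and of its subgroups as an element of `𝓗`.
* `XP p G = Irr_{p'}(G)`; `NS S = N_G(S)`; `Fx L A`: the characters in `A` fixed by all `σ ∈ L`.
* `EquivBij Γ A A'`: there is a bijection `A → A'` commuting with all `σ ∈ Γ`.
* `MGc p X` (`P8H58/MG/Twk.lean`): the McKay–Galois conjecture for the prime `p` and all finite groups in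
  the class `X`: for all Sylow `p`-subgroups `S` there is an `𝓗`-equivariant bijection between
  `Irr_{p'}(G)` and `Irr_{p'}(N_G(S))`.
* `Cl X` (`P8H58/MG/Cls.lean`): `X` is closed under isomorphisms, subgroups, quotients, direct products
  and finite extensions with a normal subgroup in `X` and solvable quotient. Examples: all groups, all
  solvable groups, all groups whose nonabelian composition factors are sections of groups in a given
  list.
* `PIx p G L` (`P8H58/MG/Stm.lean`): `L ≤ 𝓗` and the index of `L` in `𝓗`, on the `|G|`-th roots of unity,
  is a power of `p`. Equivalently: `L` is the Galois group over an abelian extension of `ℚ_p` of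
  `p`-power degree.
* `Weak p X` (`P8H58/MG/Asm.lean`): for every `ε > 0` there is `C` such that for all finite groups `G` in
  `X` and all `L` with `PIx p G L` each of the numbers of `L`-fixed characters in `Irr_{p'}(G)` and in
  `Irr_{p'}(N_G(S))` is at most `C |G| ^ ε` times the other.
* `IsTwist p S n L b K Z ν`, `XTG`, `XTN` (`P8H58/MG/Bij.lean`) and `Twisted p X` (`P8H58/MG/Asm.lean`):
  let `L` be a subgroup of `𝓗` (for the `n`-th roots of unity, `|G|` divides `n`), `b : L → Aut(G)` a
  homomorphism which only depends on the action of `L` on the `n`-th roots of unity, with all `b(σ)` of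
  order prime to `p`, `K ≤ Aut(G)` a `p`-group normalized by `b(L)`, `S` a Sylow `p`-subgroup fixed by
  `b(L)` and `K`, and `ν` a linear character of a central subgroup `Z` such that `Z` is fixed by `b(L)` and
  `K`, `σ ∘ ν = ν ∘ b(σ)` for all `σ ∈ L` and `ν` is fixed by `K`. Then there is a bijection between the
  `K`-invariant characters over `ν` in `Irr_{p'}(G)` and in `Irr_{p'}(N_G(S))` which commutes with the
  twisted action `χ ↦ σ ∘ χ ∘ b(σ)⁻¹` of `L`. (For `K = 1`, `Z = 1`: the pair `(G, b)` is a finite étale
  group scheme over the fixed field of `L` in `ℚ_p(μ_n)`, split by a subfield of degree prime to `p`, and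
  the twisted action is the Galois action on its geometric characters; the constant group schemes over
  `ℚ_p` are the case of Q1.)
* `VH r G` (`P8H58/MG/Red.lean`): `G = V ⋊ H`, `V` an elementary abelian `r`-group with `C_G(V) = V`;
  `XV r X`: the groups in `X` with this property.

Proof. (Weak ⇒ MGc) Direct powers: `Irr_{p'}(G^k) = Irr_{p'}(G)^k`, and a group `L` of `p`-power index for
`G` extends to one for `G^k` with the same fixed characters, hence the numbers are equal; the characters
with `𝓗`-orbits of `p`-power length are those fixed by a suitable group and the table of marks gives the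
equivariant bijection between them; the starting result `PowerOrbits` gives all characters.
(MGc ⇒ Twisted) Let `Δ ≤ L`. If `K = 1`, `Z = 1`: there are `M` and a group `Δ'` of lifts of the elements
of `Δ` whose image `P` in `(ℤ/M)ˣ` is a `p'`-group such that `b(σ)`, `σ ∈ Δ'`, is given by a homomorphism
`β : P → Aut(G)`. Let `P` act on `C_M × G` by units and by `β`. The `Δ'`-fixed characters of
`W = (C_M × G) ⋊ P` above a faithful character `λ` of `C_M` are the `(λ χ)^W` with
`σ ∘ χ = χ ∘ b(σ)` for all `σ ∈ Δ`; induction over the divisors of `M` gives the equality of the numbers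
of these `χ` for `G` and `N_G(S)`. `K`: apply this to `G ⋊ K`, every `K`-invariant `χ` of `p'`-degree has a
canonical extension, and to the trivial group in place of `G`. `Z`: apply this to the central quotients
`G / ker(ν^d)`; a function on `ℤ/D` invariant under units is determined by its sums over the subgroups.
Tables of marks give the bijection.
(2) For `G` in `X` let `W = V ⋊ G`, `V = C_r^G`. As `r` divides `p - 1`, `𝓗` fixes the `r`-th roots of
unity; by Clifford theory both sides for `W` are sums over the characters `μ` of `V` of the two sides for
the stabilisers `G_μ`. By induction on `|G|` the terms with `G_μ ≠ G` are equal, and so are those with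
`G_μ = G`, for example `μ = 1`.
-/

set_option autoImplicit false

namespace Pool.Agent.Results.MP_1ae3da_al.TwistedForms

open Pool.Agent.P8H58.MG

/-- Let `p` be a prime and `X` a class of groups closed under isomorphisms, subgroups, quotients, direct
products and finite extensions with solvable quotient. The following are equivalent:
(a) (`Weak`) for all finite `G` in `X`, `S ∈ Syl_p(G)` and all `L ≤ 𝓗` of `p`-power index the numbers of
`L`-fixed characters in `Irr_{p'}(G)` and in `Irr_{p'}(N_G(S))` agree up to factors `C_ε |G| ^ ε`;
(b) (`MGc`) the McKay–Galois conjecture holds for `p` and all finite groups in `X`;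
(c) (`Twisted`) the twisted form: for all finite `G` in `X` and all data `(L, b, K, Z, ν)` as above there
is a bijection between the `K`-invariant characters over `ν` in `Irr_{p'}(G)` and in `Irr_{p'}(N_G(S))`
which commutes with the action `χ ↦ σ ∘ χ ∘ b(σ)⁻¹` of `L`.
If `r` is a prime divisor of `p - 1` (for example `r = 2`) and if moreover `G ∈ X` whenever `G / V ∈ X`
for an elementary abelian normal `r`-subgroup `V` of the finite group `G`, then in (a) it suffices to
consider groups `G = V ⋊ H` in `X` with `V` an elementary abelian `r`-group, `C_G(V) = V`. -/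
theorem result (p : ℕ) [Fact p.Prime] (X : (G : Type) → [Group G] → Prop) (hX : Cl X) :
    (Weak p X ↔ MGc p X) ∧ (MGc p X ↔ Twisted p X) ∧
    ∀ r : ℕ, r.Prime → r ∣ p - 1 →
      (∀ (G : Type) [Group G] [Finite G] (V : Subgroup G) [V.Normal],
        (∀ v ∈ V, v ^ r = 1) → (∀ u ∈ V, ∀ v ∈ V, u * v = v * u) → X (G ⧸ V) → X G) →
      (Weak p (XV r X) ↔ MGc p X) :=
  ⟨(main1 hX).1, (main1 hX).2, fun _ hr hrp hV =>
    main2 Pool.Agent.P8H87.MG.vha Pool.Agent.P8H87.MG.vhb hX hr hrp hV⟩

end Pool.Agent.Results.MP_1ae3da_al.TwistedForms
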